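import Pool.Agent.V7H19.PD3.FP2

/-!
The coset graph of a group of type `FP_2` is a tree from some stage on.
-/

set_option autoImplicit false

namespace Pool.Agent.V7H19.PD3

open Pool.Agent.Helper158 (Reso)

variable {G : Type} [Group G] {r : ℕ}

/-- the conjugates of the generators by the powers of `t` with exponent at most `m` -/
def gens (t : G) (a : Fin r → G) (m : ℕ) : Set G :=
  {x | ∃ i j, j ≤ m ∧ x = t ^ j * a i * (t ^ j)⁻¹}

/-- the subgroup generated by them -/
def Bm (t : G) (a : Fin r → G) (m : ℕ) : Subgroup G := Subgroup.closure (gens t a m)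

variable {t : G} {a : Fin r → G}

lemma gens_mono {m n : ℕ} (h : m ≤ n) : gens t a m ⊆ gens t a n := by
  rintro x ⟨i, j, hj, rfl⟩
  exact ⟨i, j, hj.trans h, rfl⟩

lemma Bm_mono {m n : ℕ} (h : m ≤ n) : Bm t a m ≤ Bm t a n :=
  Subgroup.closure_mono (gens_mono h)

lemma mem_Bm {m j : ℕ} (i : Fin r) (h : j ≤ m) : t ^ j * a i * (t ^ j)⁻¹ ∈ Bm t a m :=
  Subgroup.subset_closure ⟨i, j, h, rfl⟩

lemma conj_closure {X Y : Set G} (g : G) (h : ∀ x ∈ X, g * x * g⁻¹ ∈ Subgroup.closure Y) {x : G}
    (hx : x ∈ Subgroup.closure X) : g * x * g⁻¹ ∈ Subgroup.closure Y := by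
  have h1 : Subgroup.closure X ≤ (Subgroup.closure Y).comap (MulAut.conj g).toMonoidHom := by
    rw [Subgroup.closure_le]
    intro x hx
    exact h x hx
  exact h1 hx

lemma conj_Bm {m : ℕ} {x : G} (hx : x ∈ Bm t a m) : t * x * t⁻¹ ∈ Bm t a (m + 1) := by
  refine conj_closure t ?_ hx
  rintro x ⟨i, j, hj, rfl⟩
  have e : t * (t ^ j * a i * (t ^ j)⁻¹) * t⁻¹ = t ^ (j + 1) * a i * (t ^ (j + 1))⁻¹ := by
    rw [pow_succ']
    group
  rw [e]
  exact mem_Bm i (by omega)

lemma J_Bm (m : ℕ) : J ((Bm t a m : Subgroup G) : Set G) = J (gens t a m) := by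
  apply le_antisymm
  · apply Submodule.span_le.2
    rintro y ⟨g, hg, rfl⟩
    exact J_closure hg
  · exact J_mono Subgroup.subset_closure

/-- the union of the subgroups `Bm` -/
def Binf (t : G) (a : Fin r → G) : Subgroup G := Subgroup.closure (⋃ m, gens t a m)

lemma J_Binf : J ((Binf t a : Subgroup G) : Set G) = J (⋃ m, gens t a m) := by
  apply le_antisymm
  · apply Submodule.span_le.2
    rintro y ⟨g, hg, rfl⟩
    exact J_closure hg
  · exact J_mono Subgroup.subset_closure

lemma conj_Binf {x : G} (hx : x ∈ Binf t a) : t * x * t⁻¹ ∈ Binf t a := by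
  refine conj_closure t ?_ hx
  intro x hx
  obtain ⟨m, i, j, hj, rfl⟩ := Set.mem_iUnion.1 hx
  have e : t * (t ^ j * a i * (t ^ j)⁻¹) * t⁻¹ = t ^ (j + 1) * a i * (t ^ (j + 1))⁻¹ := by
    rw [pow_succ']
    group
  rw [e]
  exact Subgroup.subset_closure (Set.mem_iUnion.2 ⟨j + 1, i, j + 1, le_rfl, rfl⟩)

lemma chi_Binf {χ : G →* Multiplicative ℤ} (hχa : ∀ i, χ (a i) = 1) {x : G} (hx : x ∈ Binf t a) :
    χ x = 1 := by
  have h1 : Binf t a ≤ χ.ker := by
    rw [Binf, Subgroup.closure_le]
    intro x hx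
    obtain ⟨m, i, j, hj, rfl⟩ := Set.mem_iUnion.1 hx
    change χ _ = 1
    rw [map_mul, map_mul, map_inv, hχa, mul_one, mul_inv_cancel]
  exact h1 hx

lemma Bm_le_Binf (m : ℕ) : Bm t a m ≤ Binf t a :=
  Subgroup.closure_mono (Set.subset_iUnion (gens t a) m)

/-- the limit of the coset graphs is a tree -/
theorem limit_claim {χ : G →* Multiplicative ℤ} (hχt : χ t = Multiplicative.ofAdd 1)
    (hχa : ∀ i, χ (a i) = 1) {x : RG G} (hx : x * (el t - 1) ∈ J (⋃ m, gens t a m)) :
    x * el t ∈ J (⋃ m, gens t a m) := by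
  rw [← J_Binf] at hx ⊢
  apply mem_of_cs
  have h1 : cs (Binf t a) (x * el t) = cs (Binf t a) x := by
    have := cs_of_mem hx
    rw [mul_sub, mul_one, map_sub, sub_eq_zero] at this
    exact this
  let ρ : G ⧸ Binf t a → G ⧸ Binf t a := Quotient.map' (fun g => g * t⁻¹) (by
    intro g g' h
    rw [QuotientGroup.leftRel_apply] at h ⊢
    have e : (g * t⁻¹)⁻¹ * (g' * t⁻¹) = t * (g⁻¹ * g') * t⁻¹ := by group
    rw [e]
    exact conj_Binf h)
  have hρ : ∀ g : G, ρ (g : G ⧸ Binf t a) = ((g * t⁻¹ : G) : G ⧸ Binf t a) := fun g => rfl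
  let η : G ⧸ Binf t a → ℤ := fun z => Quotient.liftOn' z (fun g => Multiplicative.toAdd (χ g)) (by
    intro g g' h
    rw [QuotientGroup.leftRel_apply] at h
    have := chi_Binf hχa h
    rw [map_mul, map_inv, inv_mul_eq_one] at this
    exact congrArg Multiplicative.toAdd this)
  have hη : ∀ g : G, η (g : G ⧸ Binf t a) = Multiplicative.toAdd (χ g) := fun g => rfl
  have hηρ : ∀ z, η (ρ z) = η z - 1 := by
    intro z
    obtain ⟨g, rfl⟩ := QuotientGroup.mk_surjective z
    rw [hρ, hη, hη, map_mul, map_inv, hχt]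
    rfl
  have h2 : ∀ y : RG G, cs (Binf t a) y = Finsupp.mapDomain ρ (cs (Binf t a) (y * el t)) := by
    intro y
    induction y using RG_ind with
    | h0 => simp
    | ha x y hx hy => rw [add_mul, map_add, map_add, Finsupp.mapDomain_add, ← hx, ← hy]
    | hs g k =>
      rw [smul_mul_assoc, map_zsmul, map_zsmul, ← el_mul, cs_el, cs_el, Finsupp.mapDomain_smul,
        Finsupp.mapDomain_single, hρ, mul_inv_cancel_right]
  apply eq_zero_of_shift ρ η hηρ
  conv_lhs => rw [h1, h2]

variable {P : ℕ → Type} [∀ i, AddCommGroup (P i)]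
  [∀ i, Module (MonoidAlgebra ℤ G) (P i)] {d : ∀ i, P (i + 1) →ₗ[MonoidAlgebra ℤ G] P i}
  {ε : P 0 →+ ℤ}

/-- the map defining the relation module -/
noncomputable def relMap (t : G) (a : Fin r → G) : (RG G × (Fin r → RG G)) →ₗ[RG G] RG G where
  toFun v := v.1 * (el t - 1) + ∑ i, v.2 i * (el (a i) - 1)
  map_add' v w := by
    simp only [Prod.fst_add, Prod.snd_add, Pi.add_apply, add_mul, Finset.sum_add_distrib]
    abel
  map_smul' s v := by
    simp only [Prod.smul_fst, Prod.smul_snd, Pi.smul_apply, smul_eq_mul, RingHom.id_apply, mul_add,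
      Finset.mul_sum, mul_assoc]

lemma relMap_apply (x : RG G) (y : Fin r → RG G) :
    relMap t a (x, y) = x * (el t - 1) + ∑ i, y i * (el (a i) - 1) := rfl

lemma relMap_I (v : RG G × (Fin r → RG G)) : relMap t a v ∈ I G := by
  apply Submodule.add_mem
  · exact (I G).smul_mem _ (J_le_I _ (J_mem (Set.mem_univ t)))
  · exact Submodule.sum_mem _ fun i _ => (I G).smul_mem _ (J_le_I _ (J_mem (Set.mem_univ (a i))))

lemma relMap_surj (hgen : Subgroup.closure (Set.range a ∪ {t}) = ⊤) {y : RG G} (hy : y ∈ I G) :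
    ∃ v, relMap t a v = y := by
  classical
  have h1 : I G ≤ LinearMap.range (relMap t a) := by
    refine I_le_J_univ.trans ?_
    apply Submodule.span_le.2
    rintro y ⟨g, -, rfl⟩
    have hg : g ∈ Subgroup.closure (Set.range a ∪ {t}) := by rw [hgen]; trivial
    have h2 := J_closure hg
    refine (Submodule.span_le.2 ?_) h2
    rintro y ⟨h, hh, rfl⟩
    rcases hh with ⟨i, rfl⟩ | hh
    · refine ⟨(0, Pi.single i 1), ?_⟩
      rw [relMap_apply, zero_mul, zero_add, Finset.sum_eq_single i]
      · rw [Pi.single_eq_same, one_mul]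
      · intro j _ hj
        rw [Pi.single_eq_of_ne hj, zero_mul]
      · intro h
        exact absurd (Finset.mem_univ i) h
    · rw [Set.mem_singleton_iff.1 hh]
      refine ⟨(1, 0), ?_⟩
      rw [relMap_apply]
      simp
  exact h1 hy

/-- From some stage on the coset graph has no cycles. -/
theorem exists_stage (hR : Reso P d ε) [∀ i, Module.Finite (MonoidAlgebra ℤ G) (P i)]
    [∀ i, Module.Projective (MonoidAlgebra ℤ G) (P i)]
    (hgen : Subgroup.closure (Set.range a ∪ {t}) = ⊤)
    {χ : G →* Multiplicative ℤ} (hχt : χ t = Multiplicative.ofAdd 1) (hχa : ∀ i, χ (a i) = 1) :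
    ∃ m, ∀ x : RG G, x * (el t - 1) ∈ J ((Bm t a (m + 1) : Subgroup G) : Set G) →
      x * el t ∈ J ((Bm t a m : Subgroup G) : Set G) := by
  classical
  have hfp := I_fp hR
  let l : (RG G × (Fin r → RG G)) →ₗ[RG G] I G := LinearMap.codRestrict (I G) (relMap t a) relMap_I
  have hls : Function.Surjective l := by
    rintro ⟨y, hy⟩
    obtain ⟨v, hv⟩ := relMap_surj (t := t) hgen hy
    exact ⟨v, Subtype.ext hv⟩
  obtain ⟨T, hT⟩ := Module.FinitePresentation.fg_ker l hls
  have hker : ∀ v, v ∈ LinearMap.ker l ↔ relMap t a v = 0 := by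
    intro v
    rw [LinearMap.mem_ker]
    constructor
    · intro h
      exact congrArg (Subtype.val) h
    · intro h
      exact Subtype.ext h
  obtain ⟨m, hm⟩ := J_directed_finset (fun m => gens t a m)
    (fun i j => ⟨max i j, gens_mono (le_max_left _ _), gens_mono (le_max_right _ _)⟩)
    (T.image fun v => v.1 * el t) (by
      intro y hy
      obtain ⟨v, hv, rfl⟩ := Finset.mem_image.1 hy
      apply limit_claim hχt hχa
      have h1 : relMap t a v = 0 := (hker v).1 (by rw [← hT]; exact Submodule.subset_span hv)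
      have h2 : v.1 * (el t - 1) = -∑ i, v.2 i * (el (a i) - 1) := by
        rw [eq_neg_iff_add_eq_zero]
        exact h1
      rw [h2]
      apply Submodule.neg_mem
      refine Submodule.sum_mem _ fun i _ => J_mul _ (J_mem ?_)
      exact Set.mem_iUnion.2 ⟨0, i, 0, le_rfl, by simp⟩)
  refine ⟨m, ?_⟩
  rw [J_Bm, J_Bm]
  have hrel : ∀ v, relMap t a v = 0 → v.1 * el t ∈ J (gens t a m) := by
    intro v hv
    have h1 : v ∈ Submodule.span (RG G) (T : Set (RG G × (Fin r → RG G))) := by
      rw [hT]; exact (hker v).2 hv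
    induction h1 using Submodule.span_induction with
    | mem v hv' => exact hm _ (Finset.mem_image.2 ⟨v, hv', rfl⟩)
    | zero => simp
    | add v w h1 h2 ih1 ih2 =>
      rw [Prod.fst_add, add_mul]
      exact Submodule.add_mem _ (ih1 ((hker _).1 (by rw [← hT]; exact h1)))
        (ih2 ((hker _).1 (by rw [← hT]; exact h2)))
    | smul s v h1 ih1 =>
      rw [Prod.smul_fst, smul_eq_mul, mul_assoc]
      exact J_mul _ (ih1 ((hker _).1 (by rw [← hT]; exact h1)))
  -- the generators
  have hstep : ∀ (i : Fin r) (j : ℕ), j ≤ m + 1 →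
      ∃ u w, relMap t a (u, w) = el (t ^ j * a i * (t ^ j)⁻¹) - 1 ∧
        u * el t ∈ J (gens t a m) := by
    intro i j
    induction j with
    | zero =>
      intro _
      refine ⟨0, Pi.single i 1, ?_, by simp⟩
      rw [relMap_apply, zero_mul, zero_add, Finset.sum_eq_single i]
      · simp
      · intro j _ hj
        rw [Pi.single_eq_of_ne hj, zero_mul]
      · intro h
        exact absurd (Finset.mem_univ i) h
    | succ j ih =>
      intro hj
      obtain ⟨u, w, h1, h2⟩ := ih (by omega)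
      have e0 : t ^ (j + 1) * a i * (t ^ (j + 1))⁻¹ = t * (t ^ j * a i * (t ^ j)⁻¹) * t⁻¹ := by
        rw [pow_succ']
        group
      refine ⟨el t * u + (1 - el (t ^ (j + 1) * a i * (t ^ (j + 1))⁻¹)), fun k => el t * w k, ?_, ?_⟩
      · have e1 : relMap t a (el t * u + (1 - el (t ^ (j + 1) * a i * (t ^ (j + 1))⁻¹)),
            fun k => el t * w k) = el t * relMap t a (u, w) +
              (1 - el (t ^ (j + 1) * a i * (t ^ (j + 1))⁻¹)) * (el t - 1) := by
          rw [relMap_apply, relMap_apply, mul_add, Finset.mul_sum]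
          simp only [mul_assoc, add_mul]
          abel
        rw [e1, h1, e0]
        generalize t ^ j * a i * (t ^ j)⁻¹ = b
        have e2 : el (t * b * t⁻¹) * el t = el t * el b := by
          rw [← el_mul, ← el_mul, inv_mul_cancel_right]
        rw [sub_mul, one_mul, mul_sub (el (t * b * t⁻¹)), mul_one, e2, mul_sub, mul_one]
        abel
      · have e3 : (el t * u + (1 - el (t ^ (j + 1) * a i * (t ^ (j + 1))⁻¹))) * el t =
            el t * (u * el t) - el t * (el (t ^ j * a i * (t ^ j)⁻¹) - 1) := by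
          rw [e0]
          generalize t ^ j * a i * (t ^ j)⁻¹ = b
          have e2 : el (t * b * t⁻¹) * el t = el t * el b := by
            rw [← el_mul, ← el_mul, inv_mul_cancel_right]
          rw [add_mul, sub_mul, one_mul, e2, mul_sub, mul_one, mul_assoc]
          abel
        rw [e3]
        exact Submodule.sub_mem _ (J_mul _ h2) (J_mul _ (J_mem ⟨i, j, by omega, rfl⟩))
  have hall : ∀ y ∈ J (gens t a (m + 1)), ∃ u w, relMap t a (u, w) = y ∧
      u * el t ∈ J (gens t a m) := by
    intro y hy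
    induction hy using Submodule.span_induction with
    | mem y hy =>
      obtain ⟨g, ⟨i, j, hj, rfl⟩, rfl⟩ := hy
      exact hstep i j hj
    | zero => exact ⟨0, 0, by rw [relMap_apply]; simp, by simp⟩
    | add x y _ _ hx hy =>
      obtain ⟨u, w, h1, h2⟩ := hx
      obtain ⟨u', w', h1', h2'⟩ := hy
      refine ⟨u + u', w + w', ?_, ?_⟩
      · rw [← h1, ← h1', ← map_add]; rfl
      · rw [add_mul]; exact Submodule.add_mem _ h2 h2'
    | smul s y _ hy =>
      obtain ⟨u, w, h1, h2⟩ := hy
      refine ⟨s * u, s • w, ?_, ?_⟩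
      · rw [← h1, ← map_smul]; rfl
      · rw [mul_assoc]; exact J_mul _ h2
  intro x hx
  obtain ⟨u, w, h1, h2⟩ := hall _ hx
  have h3 : relMap t a (x - u, -w) = 0 := by
    have e : ((x - u, -w) : RG G × (Fin r → RG G)) = (x, 0) - (u, w) := by
      rw [Prod.mk_sub_mk, zero_sub]
    rw [e, map_sub, h1, relMap_apply]
    simp
  have h4 := hrel _ h3
  have e : x * el t = (x - u) * el t + u * el t := by rw [← add_mul, sub_add_cancel]
  rw [e]
  exact Submodule.add_mem _ h4 h2

end Pool.Agent.V7H19.PD3
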