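import Pool.Agent.V7H19.PD3.Ring

/-!
Britton's lemma from the absence of cycles in the coset graph, and free subgroups.
-/

set_option autoImplicit false

namespace Pool.Agent.V7H19.PD3

variable {G : Type} [Group G]

/-- `t` or its inverse -/
def TT (t : G) (e : Bool) : G := if e then t else t⁻¹

/-- the label of the edge passed from `p` in the direction `e` -/
def LL (t : G) (e : Bool) (p : G) : G := if e then p * t else p

/-- the sign -/
def sg (e : Bool) : ℤ := if e then 1 else -1

lemma sum_coset_ne {n : ℕ} (D : Subgroup G) (L : ℕ → G) (e : ℕ → Bool) (hn : 0 < n)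
    (h : cs D (∑ i ∈ Finset.range n, sg (e i) • el (L i)) = 0) :
    ∃ j, j < n ∧ e j ≠ e 0 ∧ (L 0)⁻¹ * L j ∈ D := by
  classical
  by_contra hno
  push Not at hno
  have h1 : (cs D (∑ i ∈ Finset.range n, sg (e i) • el (L i))) (L 0 : G ⧸ D) =
      ∑ i ∈ Finset.range n, sg (e i) * (if (L i : G ⧸ D) = (L 0 : G ⧸ D) then 1 else 0) := by
    rw [map_sum, Finsupp.finsetSum_apply]
    refine Finset.sum_congr rfl fun i _ => ?_
    rw [map_zsmul, cs_el, Finsupp.smul_apply, Finsupp.single_apply, smul_eq_mul]
  rw [h, Finsupp.zero_apply] at h1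
  have h2 : ∀ i ∈ Finset.range n, sg (e i) * (if (L i : G ⧸ D) = (L 0 : G ⧸ D) then 1 else 0) =
      sg (e 0) * (if (L i : G ⧸ D) = (L 0 : G ⧸ D) then 1 else 0) := by
    intro i hi
    by_cases hc : (L i : G ⧸ D) = (L 0 : G ⧸ D)
    · have h3 : e i = e 0 := by
        by_contra hne
        exact hno i (Finset.mem_range.1 hi) hne (QuotientGroup.eq.1 hc.symm)
      rw [h3]
    · simp [hc]
  rw [Finset.sum_congr rfl h2, ← Finset.mul_sum] at h1
  have h4 : (0 : ℤ) < ∑ i ∈ Finset.range n, (if (L i : G ⧸ D) = (L 0 : G ⧸ D) then (1 : ℤ) else 0) := by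
    apply Finset.sum_pos' (fun i _ => by split_ifs <;> norm_num)
    exact ⟨0, Finset.mem_range.2 hn, by simp⟩
  have h5 : sg (e 0) ≠ 0 := by
    unfold sg
    split_ifs <;> norm_num
  rcases mul_eq_zero.1 h1.symm with h6 | h6
  · exact h5 h6
  · omega

/-- Britton's lemma: a reduced path of positive length is not closed. -/
theorem britton (t : G) (B D : Subgroup G) (hDB : D ≤ B) (hconj : ∀ x ∈ D, t * x * t⁻¹ ∈ B)
    (hP : ∀ x : RG G, x * (el t - 1) ∈ J (B : Set G) → x * el t ∈ J (D : Set G)) (n : ℕ) :
    ∀ (p : ℕ → G) (e : ℕ → Bool), 0 < n →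
      (∀ i, i < n → (p i * TT t (e i))⁻¹ * p (i + 1) ∈ B) →
      (∀ i, i + 1 < n → e (i + 1) ≠ e i → (LL t (e i) (p i))⁻¹ * LL t (e (i + 1)) (p (i + 1)) ∉ D) →
      (p 0)⁻¹ * p n ∉ B := by
  induction n using Nat.strong_induction_on with
  | _ n ih =>
    intro p e hn hstep hred hcl
    -- the telescoping sum
    have h1 : ∀ i, i < n → el (p (i + 1)) - el (p i * TT t (e i)) ∈ J (B : Set G) := by
      intro i hi
      have e1 : el (p (i + 1)) - el (p i * TT t (e i)) =
          el (p i * TT t (e i)) * (el ((p i * TT t (e i))⁻¹ * p (i + 1)) - 1) := by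
        rw [mul_sub, ← el_mul, mul_inv_cancel_left, mul_one]
      rw [e1]
      exact J_mul _ (J_mem (hstep i hi))
    have h2 : el (p n) - el (p 0) ∈ J (B : Set G) := by
      have e1 : el (p n) - el (p 0) = el (p 0) * (el ((p 0)⁻¹ * p n) - 1) := by
        rw [mul_sub, ← el_mul, mul_inv_cancel_left, mul_one]
      rw [e1]
      exact J_mul _ (J_mem hcl)
    have h3 : ∑ i ∈ Finset.range n, (el (p i * TT t (e i)) - el (p i)) ∈ J (B : Set G) := by
      have e1 : ∑ i ∈ Finset.range n, (el (p i * TT t (e i)) - el (p i)) =
          (el (p n) - el (p 0)) -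
            ∑ i ∈ Finset.range n, (el (p (i + 1)) - el (p i * TT t (e i))) := by
        rw [← Finset.sum_range_sub (fun i => el (p i)) n, ← Finset.sum_sub_distrib]
        exact Finset.sum_congr rfl fun i _ => by abel
      rw [e1]
      exact Submodule.sub_mem _ h2 (Submodule.sum_mem _ fun i hi => h1 i (Finset.mem_range.1 hi))
    have h4 : (∑ i ∈ Finset.range n, sg (e i) • el (LL t (e i) (p i) * t⁻¹)) * (el t - 1) ∈
        J (B : Set G) := by
      have e1 : (∑ i ∈ Finset.range n, sg (e i) • el (LL t (e i) (p i) * t⁻¹)) * (el t - 1) =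
          ∑ i ∈ Finset.range n, (el (p i * TT t (e i)) - el (p i)) := by
        rw [Finset.sum_mul]
        refine Finset.sum_congr rfl fun i _ => ?_
        cases h : e i with
        | true =>
          simp only [sg, LL, TT, if_true, one_smul, mul_inv_cancel_right]
          rw [mul_sub, mul_one, ← el_mul]
        | false =>
          simp only [sg, LL, TT]
          simp only [Bool.false_eq_true, if_false]
          rw [neg_smul, one_smul, mul_sub, mul_one, neg_mul, ← el_mul, inv_mul_cancel_right]
          abel
      rw [e1]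
      exact h3
    have h5 := hP _ h4
    have h6 : (∑ i ∈ Finset.range n, sg (e i) • el (LL t (e i) (p i) * t⁻¹)) * el t =
        ∑ i ∈ Finset.range n, sg (e i) • el (LL t (e i) (p i)) := by
      rw [Finset.sum_mul]
      refine Finset.sum_congr rfl fun i _ => ?_
      rw [smul_mul_assoc, ← el_mul, inv_mul_cancel_right]
    rw [h6] at h5
    obtain ⟨j, hj, hej, hD⟩ := sum_coset_ne D (fun i => LL t (e i) (p i)) e hn (cs_of_mem h5)
    have hj0 : 0 < j := by
      rcases Nat.eq_zero_or_pos j with h | h
      · subst h
        exact absurd rfl hej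
      · exact h
    rcases Nat.lt_or_ge 1 j with hj1 | hj1
    · -- a shorter closed path
      have h7 := ih (j - 1) (by omega) (fun k => p (1 + k)) (fun k => e (1 + k)) (by omega)
        (fun i hi => by
          have := hstep (1 + i) (by omega)
          rwa [add_assoc] at this)
        (fun i hi => by
          have := hred (1 + i) (by omega)
          rwa [add_assoc] at this)
      apply h7
      have ej : 1 + (j - 1) = j := by omega
      simp only [ej, add_zero]
      have h8 : (p 0 * TT t (e 0))⁻¹ * p 1 ∈ B := hstep 0 hn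
      have h9 : (p 0 * TT t (e 0))⁻¹ * p j ∈ B := by
        cases h0 : e 0 with
        | true =>
          have hjf : e j = false := by
            cases hh : e j with
            | true => exact absurd (hh.trans h0.symm) hej
            | false => rfl
          rw [h0, hjf] at hD
          exact hDB hD
        | false =>
          have hjf : e j = true := by
            cases hh : e j with
            | false => exact absurd (hh.trans h0.symm) hej
            | true => rfl
          rw [h0, hjf] at hD
          have h10 := hconj _ hD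
          have e1 : t * ((LL t false (p 0))⁻¹ * LL t true (p j)) * t⁻¹ =
              (p 0 * TT t false)⁻¹ * p j := by
            simp only [LL, TT]
            simp only [Bool.false_eq_true, if_false, if_true]
            group
          rw [e1] at h10
          exact h10
      have e2 : (p 1)⁻¹ * p j = ((p 0 * TT t (e 0))⁻¹ * p 1)⁻¹ * ((p 0 * TT t (e 0))⁻¹ * p j) := by
        group
      rw [e2]
      exact mul_mem (inv_mem h8) h9
    · have hj2 : j = 1 := by omega
      subst hj2
      exact hred 0 hj hej hD

end Pool.Agent.V7H19.PD3
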