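import Pool.Agent.V7H19.PD3.Ring
import Pool.Agent.Helper158.Bridge

/-!
The relation module of a group of type `FP_2`.
-/

set_option autoImplicit false

namespace Pool.Agent.V7H19.PD3

open Pool.Agent.Helper158 (Reso)

variable {G : Type} [Group G]

/-- the augmentation -/
noncomputable def aug : RG G →ₐ[ℤ] ℤ := MonoidAlgebra.lift ℤ ℤ G (1 : G →* ℤ)

lemma aug_el (g : G) : aug (el g) = 1 := by
  rw [aug, el, MonoidAlgebra.lift_of]
  rfl

/-- the augmentation ideal as a left ideal -/
noncomputable def I (G : Type) [Group G] : Submodule (RG G) (RG G) where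
  carrier := {x | aug x = 0}
  zero_mem' := map_zero _
  add_mem' := fun {x y} hx hy => by
    change aug (x + y) = 0
    rw [map_add, show aug x = 0 from hx, show aug y = 0 from hy, add_zero]
  smul_mem' := fun r x hx => by
    change aug (r * x) = 0
    rw [map_mul, show aug x = 0 from hx, mul_zero]

lemma mem_I {x : RG G} : x ∈ I G ↔ aug x = 0 := Iff.rfl

lemma I_le_J_univ : I G ≤ J (Set.univ : Set G) := by
  intro x hx
  have key : ∀ x : RG G, x - aug x • 1 ∈ J (Set.univ : Set G) := by
    intro x
    induction x using RG_ind with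
    | h0 => simp
    | ha x y hx hy =>
      rw [map_add, add_smul, add_sub_add_comm]
      exact Submodule.add_mem _ hx hy
    | hs g r =>
      rw [map_smul, aug_el, smul_eq_mul, mul_one, ← smul_sub]
      exact Submodule.smul_of_tower_mem _ r (J_mem (Set.mem_univ g))
  have := key x
  rwa [mem_I.1 hx, zero_smul, sub_zero] at this

lemma J_le_I (X : Set G) : J X ≤ I G := by
  apply Submodule.span_le.2
  rintro y ⟨g, -, rfl⟩
  change aug (el g - 1) = 0
  rw [map_sub, aug_el, map_one, sub_self]

variable {P : ℕ → Type} [∀ i, AddCommGroup (P i)]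
  [∀ i, Module (MonoidAlgebra ℤ G) (P i)] {d : ∀ i, P (i + 1) →ₗ[MonoidAlgebra ℤ G] P i}
  {ε : P 0 →+ ℤ}

lemma eps_smul (hR : Reso P d ε) (r : RG G) (x : P 0) : ε (r • x) = aug r * ε x := by
  induction r using RG_ind with
  | h0 => simp
  | ha a b ha hb => rw [add_smul, map_add, ha, hb, map_add, add_mul]
  | hs g k =>
    rw [smul_assoc, map_zsmul, map_smul aug, aug_el]
    have : ε (el g • x) = ε x := hR.equi g x
    rw [this, smul_eq_mul, smul_eq_mul, mul_one]

theorem I_fp (hR : Reso P d ε) [∀ i, Module.Finite (MonoidAlgebra ℤ G) (P i)]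
    [∀ i, Module.Projective (MonoidAlgebra ℤ G) (P i)] :
    Module.FinitePresentation (RG G) (I G) := by
  classical
  -- the kernel of `ε`
  let K : Submodule (RG G) (P 0) := LinearMap.range (d 0)
  have hK : ∀ x : P 0, x ∈ K ↔ ε x = 0 := fun x => (hR.ex0 x).symm
  haveI : Module.FinitePresentation (RG G) (P 1) := Module.finitePresentation_of_projective _ _
  haveI hKfp : Module.FinitePresentation (RG G) K := by
    refine Module.finitePresentation_of_surjective (d 0).rangeRestrict
      (d 0).surjective_rangeRestrict ?_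
    have e : LinearMap.ker (d 0).rangeRestrict = LinearMap.range (d 1) := by
      ext x
      rw [LinearMap.ker_rangeRestrict, LinearMap.mem_ker]
      exact hR.ex 0 x
    rw [e, LinearMap.range_eq_map]
    exact (Module.Finite.fg_top).map _
  -- lifts
  obtain ⟨p0, hp0⟩ := hR.surj 1
  obtain ⟨n, f, s, hfs, -, hfs'⟩ := Module.Finite.exists_comp_eq_id_of_projective (RG G) (P 0)
  let α' : (Fin n → RG G) →ₗ[RG G] RG G :=
    { toFun := fun v => ∑ k, v k * (ε (f (Pi.single k 1)) • (1 : RG G))
      map_add' := fun v w => by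
        simp only [Pi.add_apply, add_mul, Finset.sum_add_distrib]
      map_smul' := fun r v => by
        simp only [Pi.smul_apply, smul_eq_mul, RingHom.id_apply, Finset.mul_sum, mul_assoc] }
  have hα' : ∀ v, aug (α' v) = ε (f v) := by
    intro v
    have h1 : v = ∑ k, v k • (Pi.single k (1 : RG G) : Fin n → RG G) := by
      funext j
      rw [Finset.sum_apply, Finset.sum_eq_single j]
      · simp
      · intro i _ hi
        rw [Pi.smul_apply, Pi.single_eq_of_ne (Ne.symm hi), smul_zero]
      · intro h
        exact absurd (Finset.mem_univ j) h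
    conv_rhs => rw [h1, map_sum, map_sum]
    change aug (∑ k, v k * (ε (f (Pi.single k 1)) • (1 : RG G))) = _
    rw [map_sum]
    refine Finset.sum_congr rfl fun k _ => ?_
    rw [map_smul, eps_smul hR, map_mul, map_smul, map_one, smul_eq_mul, mul_one]
  let α : P 0 →ₗ[RG G] RG G := α' ∘ₗ s
  have hα : ∀ x, aug (α x) = ε x := by
    intro x
    change aug (α' (s x)) = ε x
    rw [hα']
    congr 1
    exact LinearMap.congr_fun hfs' x
  let β : RG G →ₗ[RG G] P 0 := LinearMap.toSpanSingleton (RG G) (P 0) p0
  have hβ : ∀ r, ε (β r) = aug r := by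
    intro r
    change ε (r • p0) = aug r
    rw [eps_smul hR, hp0, mul_one]
  let l0 : (K × RG G) →ₗ[RG G] RG G :=
    α ∘ₗ K.subtype ∘ₗ LinearMap.fst _ _ _ +
      (LinearMap.id - α ∘ₗ β) ∘ₗ LinearMap.snd _ _ _
  have hl0 : ∀ k z, l0 (k, z) = α k + (z - α (β z)) := fun k z => rfl
  have hl0I : ∀ x, l0 x ∈ I G := by
    rintro ⟨k, z⟩
    rw [mem_I, hl0, map_add, map_sub, hα, hα, hβ, (hK k).1 k.2]
    ring
  let l : (K × RG G) →ₗ[RG G] I G := LinearMap.codRestrict (I G) l0 hl0I
  have hl : ∀ k z, ((l (k, z) : I G) : RG G) = α k + (z - α (β z)) := fun k z => rfl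
  refine Module.finitePresentation_of_surjective l ?_ ?_
  · rintro ⟨y, hy⟩
    have h1 : β y ∈ K := by rw [hK, hβ]; exact hy
    refine ⟨(⟨β y, h1⟩, y), Subtype.ext ?_⟩
    rw [hl]
    change α (β y) + (y - α (β y)) = y
    abel
  · let γ0 : P 0 →ₗ[RG G] P 0 := LinearMap.id - β ∘ₗ α
    have hγ0 : ∀ p, γ0 p ∈ K := by
      intro p
      rw [hK]
      change ε (p - β (α p)) = 0
      rw [map_sub, hβ, hα, sub_self]
    let γ : P 0 →ₗ[RG G] (K × RG G) := LinearMap.prod (LinearMap.codRestrict K γ0 hγ0) (-α)
    have e : LinearMap.ker l = LinearMap.range γ := by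
      ext ⟨k, z⟩
      rw [LinearMap.mem_ker, LinearMap.mem_range]
      constructor
      · intro h
        have h1 : α k + (z - α (β z)) = 0 := by
          rw [← hl, h]; rfl
        have h2 : α ((k : P 0) - β z) = -z := by
          rw [map_sub]
          have : α (k : P 0) = α (β z) - z := by
            rw [eq_sub_iff_add_eq, ← sub_eq_zero]
            rw [← h1]; abel
          rw [this]; abel
        refine ⟨(k : P 0) - β z, ?_⟩
        apply Prod.ext
        · apply Subtype.ext
          change ((k : P 0) - β z) - β (α ((k : P 0) - β z)) = k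
          rw [h2, map_neg]
          abel
        · change -(α ((k : P 0) - β z)) = z
          rw [h2, neg_neg]
      · rintro ⟨p, hp⟩
        have hk : p - β (α p) = (k : P 0) := congrArg (fun q => ((Prod.fst q : K) : P 0)) hp
        have hz : -α p = z := congrArg Prod.snd hp
        apply Subtype.ext
        rw [hl, ← hk, ← hz]
        change α (p - β (α p)) + (-α p - α (β (-α p))) = 0
        simp only [map_sub, map_neg]
        abel
    rw [e, LinearMap.range_eq_map]
    exact (Module.Finite.fg_top).map _

/-- a group whose augmentation ideal is finitely generated is finitely generated -/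
theorem fg_of_I [h : Module.Finite (RG G) (I G)] :
    ∃ S : Finset G, Subgroup.closure (S : Set G) = ⊤ := by
  classical
  have hfg : (I G).FG := Module.Finite.iff_fg.1 h
  obtain ⟨T, hT⟩ := hfg
  obtain ⟨S, hS⟩ := J_directed_finset (fun S : Finset G => (S : Set G))
    (fun A B => ⟨A ∪ B, by simp, by simp⟩) T (by
      intro y hy
      have h1 : y ∈ J (Set.univ : Set G) :=
        I_le_J_univ (by rw [← hT]; exact Submodule.subset_span hy)
      refine J_mono ?_ h1
      intro g _
      exact Set.mem_iUnion.2 ⟨{g}, by simp⟩)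
  refine ⟨S, ?_⟩
  have h2 : I G ≤ J ((Subgroup.closure (S : Set G) : Subgroup G) : Set G) := by
    rw [← hT, Submodule.span_le]
    intro y hy
    exact J_mono Subgroup.subset_closure (hS y hy)
  rw [eq_top_iff]
  intro g _
  have h3 : el g - 1 ∈ I G := J_le_I _ (J_mem (Set.mem_univ g))
  have h4 := cs_of_mem (h2 h3)
  rw [map_sub, cs_el, ← el_one, cs_el, sub_eq_zero] at h4
  have h5 := Finsupp.single_left_injective (one_ne_zero) h4
  have h6 := QuotientGroup.eq.1 h5.symm
  simpa using h6

end Pool.Agent.V7H19.PD3
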