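import Pool.Agent.V7H19.PD3.Brit

/-!
Free subgroups of rank two.
-/

set_option autoImplicit false

namespace Pool.Agent.V7H19.PD3

variable {G : Type} [Group G]

section

variable (t c d : G)

/-- first part of a letter -/
def fr (x : Bool × Bool) : G := if x.2 then 1 else (if x.1 then c else d)

/-- middle part of a letter -/
def mi (x : Bool × Bool) : G :=
  if x.2 then (if x.1 then d else c) else (if x.1 then d else c)⁻¹

/-- last part of a letter -/
def la (x : Bool × Bool) : G := if x.2 then (if x.1 then c⁻¹ else d⁻¹) else 1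

/-- the two generators -/
def gn (b : Bool) : G := if b then t * d * t⁻¹ * c⁻¹ else t⁻¹ * c * t * d⁻¹

/-- value of a letter -/
def val (x : Bool × Bool) : G := cond x.2 (gn t c d x.1) (gn t c d x.1)⁻¹

lemma val_eq (x : Bool × Bool) :
    val t c d x = fr c d x * TT t x.1 * mi c d x * TT t (!x.1) * la c d x := by
  obtain ⟨b, s⟩ := x
  cases b <;> cases s <;> simp [val, fr, mi, la, gn, TT, mul_assoc]

end

theorem free_aux (t : G) (B D : Subgroup G) (hDB : D ≤ B) (hconj : ∀ x ∈ D, t * x * t⁻¹ ∈ B)
    (hP : ∀ x : RG G, x * (el t - 1) ∈ J (B : Set G) → x * el t ∈ J (D : Set G))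
    {c d : G} (hc : c ∈ B) (hc' : t⁻¹ * c * t ∉ D) (hd : d ∈ B) (hd' : d ∉ D) {N : ℕ} (hN : 0 < N)
    (x : ℕ → Bool × Bool) (P : ℕ → G) (hPs : ∀ k, k < N → P (k + 1) = P k * val t c d (x k))
    (hx : ∀ k, k + 1 < N → (x k).1 = (x (k + 1)).1 → (x k).2 = (x (k + 1)).2) :
    (P 0)⁻¹ * P N ∉ B := by
  intro hcl
  have hfr : ∀ y, fr c d y ∈ B := by
    rintro ⟨b, s⟩
    cases b <;> cases s <;> simp [fr, hc, hd]
  have hla : ∀ y, la c d y ∈ B := by
    rintro ⟨b, s⟩
    cases b <;> cases s <;> simp [la, hc, hd]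
  have hmi : ∀ y, mi c d y ∈ B := by
    rintro ⟨b, s⟩
    cases b <;> cases s <;> simp [mi, hc, hd]
  have hc'' : t⁻¹ * c⁻¹ * t ∉ D := by
    intro h
    apply hc'
    have e : t⁻¹ * c * t = (t⁻¹ * c⁻¹ * t)⁻¹ := by group
    rw [e]
    exact inv_mem h
  have hd'' : d⁻¹ ∉ D := by
    intro h
    exact hd' (by simpa using inv_mem h)
  let p : ℕ → G := fun i =>
    if i % 2 = 0 then P (i / 2) * fr c d (x (i / 2))
    else P (i / 2) * fr c d (x (i / 2)) * TT t (x (i / 2)).1 * mi c d (x (i / 2))
  let e : ℕ → Bool := fun i => if i % 2 = 0 then (x (i / 2)).1 else !(x (i / 2)).1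
  have hp0 : ∀ k, p (2 * k) = P k * fr c d (x k) := by
    intro k
    have h1 : 2 * k % 2 = 0 := by omega
    have h2 : 2 * k / 2 = k := by omega
    simp only [p, h1, h2, if_true]
  have hp1 : ∀ k, p (2 * k + 1) = P k * fr c d (x k) * TT t (x k).1 * mi c d (x k) := by
    intro k
    have h1 : ¬ (2 * k + 1) % 2 = 0 := by omega
    have h2 : (2 * k + 1) / 2 = k := by omega
    simp only [p, h1, h2, if_false]
  have he0 : ∀ k, e (2 * k) = (x k).1 := by
    intro k
    have h1 : 2 * k % 2 = 0 := by omega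
    have h2 : 2 * k / 2 = k := by omega
    simp only [e, h1, h2, if_true]
  have he1 : ∀ k, e (2 * k + 1) = !(x k).1 := by
    intro k
    have h1 : ¬ (2 * k + 1) % 2 = 0 := by omega
    have h2 : (2 * k + 1) / 2 = k := by omega
    simp only [e, h1, h2, if_false]
  have hnext : ∀ k, k < N → p (2 * (k + 1)) = p (2 * k + 1) * TT t (!(x k).1) *
      (la c d (x k) * fr c d (x (k + 1))) := by
    intro k hk
    rw [hp0, hp1, hPs k hk, val_eq]
    group
  have key := britton t B D hDB hconj hP (2 * N) p e (by omega)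
    (by
      intro i hi
      obtain ⟨k, rfl | rfl⟩ : ∃ k, i = 2 * k ∨ i = 2 * k + 1 := ⟨i / 2, by omega⟩
      · rw [he0, hp1, hp0]
        have e1 : (P k * fr c d (x k) * TT t (x k).1)⁻¹ *
            (P k * fr c d (x k) * TT t (x k).1 * mi c d (x k)) = mi c d (x k) := by group
        rw [e1]
        exact hmi _
      · rw [show 2 * k + 1 + 1 = 2 * (k + 1) by ring, hnext k (by omega), he1]
        rw [inv_mul_cancel_left]
        exact mul_mem (hla _) (hfr _))
    (by
      intro i hi hne
      obtain ⟨k, rfl | rfl⟩ : ∃ k, i = 2 * k ∨ i = 2 * k + 1 := ⟨i / 2, by omega⟩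
      · rw [he0, he1, hp1, hp0]
        generalize P k * fr c d (x k) = q
        obtain ⟨b, s⟩ := x k
        cases b <;> cases s <;>
          simp [LL, TT, mi, hd', hd'', mul_assoc] <;>
          first
            | (rw [← mul_assoc]; exact hc')
            | (rw [← mul_assoc]; exact hc'')
      · rw [show 2 * k + 1 + 1 = 2 * (k + 1) by ring] at hne hi ⊢
        rw [he0, he1] at hne ⊢
        rw [hnext k (by omega)]
        have h1 : (x k).1 = (x (k + 1)).1 := by
          revert hne
          cases (x k).1 <;> cases (x (k + 1)).1 <;> simp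
        have h2 := hx k (by omega) h1
        have h3 : x (k + 1) = x k := Prod.ext h1.symm h2.symm
        rw [h3]
        generalize p (2 * k + 1) = q
        obtain ⟨b, s⟩ := x k
        cases b <;> cases s <;>
          simp [LL, TT, la, fr, hd', hd'', mul_assoc] <;>
          first
            | (rw [← mul_assoc]; exact hc')
            | (rw [← mul_assoc]; exact hc''))
  apply key
  have h0 := hp0 0
  have h1 := hp0 N
  rw [mul_zero] at h0
  rw [h0, h1]
  have e1 : (P 0 * fr c d (x 0))⁻¹ * (P N * fr c d (x N)) =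
      (fr c d (x 0))⁻¹ * ((P 0)⁻¹ * P N) * fr c d (x N) := by group
  rw [e1]
  exact mul_mem (mul_mem (inv_mem (hfr _)) hcl) (hfr _)

/-- free subgroups -/
theorem exists_free (t : G) (B D : Subgroup G) (hDB : D ≤ B) (hconj : ∀ x ∈ D, t * x * t⁻¹ ∈ B)
    (hP : ∀ x : RG G, x * (el t - 1) ∈ J (B : Set G) → x * el t ∈ J (D : Set G))
    {c d : G} (hc : c ∈ B) (hc' : t⁻¹ * c * t ∉ D) (hd : d ∈ B) (hd' : d ∉ D) :
    ∃ f : FreeGroup Bool →* G, Function.Injective f := by
  refine ⟨FreeGroup.lift (gn t c d), ?_⟩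
  rw [injective_iff_map_eq_one]
  intro w hw
  by_contra hne
  have hL : w.toWord ≠ [] := fun h => hne (FreeGroup.toWord_eq_nil_iff.1 h)
  have hred : FreeGroup.IsReduced w.toWord := FreeGroup.isReduced_toWord
  have hw' : (w.toWord.map (val t c d)).prod = 1 := by
    rw [← hw]
    conv_rhs => rw [← FreeGroup.mk_toWord (x := w)]
    rw [FreeGroup.lift_mk]
    rfl
  have hlen : 0 < w.toWord.length := List.length_pos_iff.2 hL
  have key := free_aux t B D hDB hconj hP hc hc' hd hd' hlen
    (fun k => w.toWord.getD k (true, true)) (fun k => ((w.toWord.take k).map (val t c d)).prod)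
    (by
      intro k hk
      have h1 : w.toWord.getD k (true, true) = w.toWord[k] := by
        rw [List.getD_eq_getElem _ _ hk]
      rw [h1, List.take_succ_eq_append_getElem hk, List.map_append, List.prod_append]
      simp)
    (by
      intro k hk h
      have h1 : w.toWord.getD k (true, true) = w.toWord[k] := by
        rw [List.getD_eq_getElem _ _ (by omega)]
      have h2 : w.toWord.getD (k + 1) (true, true) = w.toWord[k + 1] := by
        rw [List.getD_eq_getElem _ _ hk]
      rw [h1, h2] at h ⊢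
      exact (List.isChain_iff_getElem.1 hred) k hk h)
  apply key
  simp [hw', B.one_mem]

end Pool.Agent.V7H19.PD3
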