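import Pool.Agent.V7H19.PD3.BS
import Pool.Agent.V7H19.PD3.Free
import Pool.Agent.Helper386.PD3.PartA

/-!
Groups of type `FP_2` and `PD_3`-groups without free subgroups.
-/

set_option autoImplicit false

namespace Pool.Agent.V7H19.PD3

open Pool.Agent.Helper158 (Reso)
open Pool.Agent.Helper386.PD3 (Full core exists_full)

variable {G : Type} [Group G]

variable {P : ℕ → Type} [∀ i, AddCommGroup (P i)]
  [∀ i, Module (MonoidAlgebra ℤ G) (P i)] {d : ∀ i, P (i + 1) →ₗ[MonoidAlgebra ℤ G] P i}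
  {ε : P 0 →+ ℤ}

lemma chi_t_zpow {χ : G →* Multiplicative ℤ} {t : G} (hχt : χ t = Multiplicative.ofAdd 1) (g : G) :
    χ (g * (t ^ (Multiplicative.toAdd (χ g)))⁻¹) = 1 := by
  rw [map_mul, map_inv, map_zpow, hχt, ← ofAdd_zsmul]
  simp

/-- Bieri-Strebel: a group of type `FP_2` without free subgroups of rank two, which maps onto `ℤ`,
is an ascending HNN extension with a finitely generated base. -/
theorem exists_base (hR : Reso P d ε) [∀ i, Module.Finite (MonoidAlgebra ℤ G) (P i)]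
    [∀ i, Module.Projective (MonoidAlgebra ℤ G) (P i)]
    (hfree : ∀ f : FreeGroup Bool →* G, ¬ Function.Injective f)
    (χ : G →* Multiplicative ℤ) {t : G} (hχt : χ t = Multiplicative.ofAdd 1) :
    ∃ B : Subgroup G, B.FG ∧ Subgroup.closure ((B : Set G) ∪ {t}) = ⊤ ∧ (∀ x ∈ B, χ x = 1) ∧
      ((∀ x ∈ B, t * x * t⁻¹ ∈ B) ∨ (∀ x ∈ B, t⁻¹ * x * t ∈ B)) := by
  classical
  haveI := I_fp hR
  obtain ⟨S, hS⟩ := fg_of_I (G := G)
  obtain ⟨r, s, hs⟩ : ∃ (r : ℕ) (s : Fin r → G), Set.range s = (S : Set G) :=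
    ⟨S.card, fun i => (S.equivFin.symm i : G), by
      ext g
      constructor
      · rintro ⟨i, rfl⟩
        exact (S.equivFin.symm i).2
      · intro hg
        exact ⟨S.equivFin ⟨g, hg⟩, by simp⟩⟩
  let a : Fin r → G := fun i => s i * (t ^ (Multiplicative.toAdd (χ (s i))))⁻¹
  have hχa : ∀ i, χ (a i) = 1 := fun i => chi_t_zpow hχt (s i)
  have hgen : Subgroup.closure (Set.range a ∪ {t}) = ⊤ := by
    rw [eq_top_iff, ← hS, Subgroup.closure_le, ← hs]
    rintro _ ⟨i, rfl⟩
    have h1 : s i = a i * t ^ (Multiplicative.toAdd (χ (s i))) := by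
      simp only [a, inv_mul_cancel_right]
    rw [h1]
    refine mul_mem (Subgroup.subset_closure (Or.inl ⟨i, rfl⟩)) (zpow_mem ?_ _)
    exact Subgroup.subset_closure (Or.inr rfl)
  obtain ⟨m, hm⟩ := exists_stage (a := a) hR hgen hχt hχa
  have hfin : (gens t a (m + 1)).Finite := by
    have : gens t a (m + 1) ⊆ Set.range (fun q : Fin r × Fin (m + 2) =>
        t ^ (q.2 : ℕ) * a q.1 * (t ^ (q.2 : ℕ))⁻¹) := by
      rintro x ⟨i, j, hj, rfl⟩
      exact ⟨(i, ⟨j, by omega⟩), rfl⟩
    exact (Set.finite_range _).subset this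
  refine ⟨Bm t a (m + 1), ⟨hfin.toFinset, by rw [Set.Finite.coe_toFinset]; rfl⟩, ?_, ?_, ?_⟩
  · rw [eq_top_iff, ← hgen, Subgroup.closure_le]
    rintro g (⟨i, rfl⟩ | hg)
    · refine Subgroup.subset_closure (Or.inl ?_)
      have := mem_Bm (t := t) (a := a) (m := m + 1) i (Nat.zero_le _)
      simpa using this
    · exact Subgroup.subset_closure (Or.inr hg)
  · intro x hx
    exact chi_Binf hχa (Bm_le_Binf _ hx)
  · by_contra hno
    push Not at hno
    obtain ⟨⟨d, hd, hd'⟩, ⟨c, hc, hc'⟩⟩ := hno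
    have hd'' : d ∉ Bm t a m := fun h => hd' (conj_Bm h)
    have hc'' : t⁻¹ * c * t ∉ Bm t a m := fun h => hc' (Bm_mono (Nat.le_succ m) h)
    obtain ⟨f, hf⟩ := exists_free t (Bm t a (m + 1)) (Bm t a m) (Bm_mono (Nat.le_succ m))
      (fun x hx => conj_Bm hx) hm hc hc'' hd hd''
    exact hfree f hf

/-- The kernel is the base if the base is normalised by `t`. -/
lemma ker_eq {χ : G →* Multiplicative ℤ} {t : G} (hχt : χ t = Multiplicative.ofAdd 1)
    (B : Subgroup G) (hgen : Subgroup.closure ((B : Set G) ∪ {t}) = ⊤) (hχB : ∀ x ∈ B, χ x = 1)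
    (h1 : ∀ x ∈ B, t * x * t⁻¹ ∈ B) (h2 : ∀ x ∈ B, t⁻¹ * x * t ∈ B) : χ.ker = B := by
  have hn : B.Normal := by
    have h3 : (⊤ : Subgroup G) ≤ Subgroup.normalizer (B : Set G) := by
      rw [← hgen, Subgroup.closure_le]
      rintro g (hg | hg)
      · exact Subgroup.le_normalizer hg
      · rw [Set.mem_singleton_iff.1 hg]
        rw [SetLike.mem_coe, Subgroup.mem_normalizer_iff]
        intro x
        refine ⟨h1 x, fun h => ?_⟩
        have := h2 _ h
        have e : t⁻¹ * (t * x * t⁻¹) * t = x := by group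
        rwa [e] at this
    exact Subgroup.normalizer_eq_top_iff.1 (eq_top_iff.2 h3)
  apply le_antisymm
  · have h4 : ∀ g : G, g * (t ^ (Multiplicative.toAdd (χ g)))⁻¹ ∈ B := by
      intro g
      have hg : g ∈ Subgroup.closure ((B : Set G) ∪ {t}) := by rw [hgen]; trivial
      induction hg using Subgroup.closure_induction with
      | mem x hx =>
        rcases hx with hx | hx
        · rw [hχB x hx]
          simpa using hx
        · rw [Set.mem_singleton_iff.1 hx, hχt]
          simp [B.one_mem]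
      | one => simp [B.one_mem]
      | mul x y _ _ hx hy =>
        rw [map_mul, toAdd_mul, zpow_add]
        have e : x * y * (t ^ Multiplicative.toAdd (χ x) * t ^ Multiplicative.toAdd (χ y))⁻¹ =
            x * (t ^ Multiplicative.toAdd (χ x))⁻¹ * (t ^ Multiplicative.toAdd (χ x) *
              (y * (t ^ Multiplicative.toAdd (χ y))⁻¹) * (t ^ Multiplicative.toAdd (χ x))⁻¹) := by
          have hcomm : (t ^ Multiplicative.toAdd (χ x) * t ^ Multiplicative.toAdd (χ y))⁻¹ =
              (t ^ Multiplicative.toAdd (χ y))⁻¹ * (t ^ Multiplicative.toAdd (χ x))⁻¹ := by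
            rw [mul_inv_rev]
          rw [hcomm]
          group
        rw [e]
        exact mul_mem hx (hn.conj_mem _ hy _)
      | inv x _ hx =>
        rw [map_inv, toAdd_inv, zpow_neg, inv_inv]
        have e : x⁻¹ * t ^ Multiplicative.toAdd (χ x) =
            x⁻¹ * (x * (t ^ Multiplicative.toAdd (χ x))⁻¹)⁻¹ * x⁻¹⁻¹ := by group
        rw [e]
        exact hn.conj_mem _ (inv_mem hx) _
    intro g hg
    have h5 := h4 g
    rw [MonoidHom.mem_ker.1 hg] at h5
    simpa using h5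
  · intro x hx
    exact hχB x hx

/-- The main theorem. -/
theorem ker_fg (hR : Reso P d ε) (m : ℕ) (hm : ∀ i, m < i → Subsingleton (P i))
    [∀ i, Module.Finite (MonoidAlgebra ℤ G) (P i)]
    [∀ i, Module.Projective (MonoidAlgebra ℤ G) (P i)]
    (hcoh : ∀ i, i ≠ 3 → Subsingleton (groupCohomology (Rep.leftRegular ℤ G) i))
    (htop : Nonempty (groupCohomology (Rep.leftRegular ℤ G) 3 ≃+ ℤ))
    (hfree : ∀ f : FreeGroup Bool →* G, ¬ Function.Injective f)
    (χ : G →* Multiplicative ℤ) (hχ : Function.Surjective χ) : χ.ker.FG := by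
  obtain ⟨t, hχt⟩ := hχ (Multiplicative.ofAdd 1)
  obtain ⟨B, hB, hgen, hχB, h | h⟩ := exists_base hR hfree χ hχt
  · obtain ⟨w, n, e0, e1, e2, e3, d0, d1, d2, hF⟩ := exists_full hR m hm hcoh htop
    have h2 := core hF B hB t hgen h χ hχB hχt
    rw [ker_eq hχt B hgen hχB h h2]
    exact hB
  · obtain ⟨w, n, e0, e1, e2, e3, d0, d1, d2, hF⟩ := exists_full hR m hm hcoh htop
    have hgen' : Subgroup.closure ((B : Set G) ∪ {t⁻¹}) = ⊤ := by
      rw [eq_top_iff, ← hgen, Subgroup.closure_le]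
      rintro g (hg | hg)
      · exact Subgroup.subset_closure (Or.inl hg)
      · rw [Set.mem_singleton_iff.1 hg]
        have : t⁻¹ ∈ Subgroup.closure ((B : Set G) ∪ {t⁻¹}) := Subgroup.subset_closure (Or.inr rfl)
        simpa using inv_mem this
    have h2 := core hF B hB t⁻¹ hgen' (by simpa using h) χ⁻¹
      (by
        intro x hx
        rw [MonoidHom.inv_apply, hχB x hx, inv_one])
      (by rw [MonoidHom.inv_apply, map_inv, hχt, inv_inv])
    rw [ker_eq hχt B hgen hχB (by simpa using h2) h]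
    exact hB

end Pool.Agent.V7H19.PD3
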