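import Mathlib

/-!
Left ideals of the group ring attached to subgroups.
-/

set_option autoImplicit false

namespace Pool.Agent.V7H19.PD3

variable {G : Type} [Group G]

/-- the integral group ring -/
abbrev RG (G : Type) [Group G] : Type := MonoidAlgebra ℤ G

/-- group elements in the group ring -/
noncomputable def el (g : G) : RG G := MonoidAlgebra.of ℤ G g

lemma el_mul (g h : G) : el (g * h) = el g * el h := map_mul _ _ _

lemma el_one : el (1 : G) = 1 := map_one _

lemma el_inv_mul (g : G) : el g⁻¹ * el g = 1 := by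
  rw [← el_mul, inv_mul_cancel, el_one]

lemma el_mul_inv (g : G) : el g * el g⁻¹ = 1 := by
  rw [← el_mul, mul_inv_cancel, el_one]

lemma coeff_el (g : G) : (el g).coeff = Finsupp.single g 1 := rfl

/-- the left ideal generated by the elements `h - 1` with `h` in `X` -/
noncomputable def J (X : Set G) : Submodule (RG G) (RG G) :=
  Submodule.span (RG G) {y | ∃ h ∈ X, y = el h - 1}

lemma J_mem {X : Set G} {h : G} (hh : h ∈ X) : el h - 1 ∈ J X :=
  Submodule.subset_span ⟨h, hh, rfl⟩

lemma J_mul {X : Set G} {y : RG G} (r : RG G) (hy : y ∈ J X) : r * y ∈ J X :=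
  (J X).smul_mem r hy

lemma J_mono {X Y : Set G} (h : X ⊆ Y) : J X ≤ J Y := by
  apply Submodule.span_mono
  rintro y ⟨g, hg, rfl⟩
  exact ⟨g, h hg, rfl⟩

/-- the differences `h - 1` for `h` in the subgroup generated by `X` -/
lemma J_closure {X : Set G} {h : G} (hh : h ∈ Subgroup.closure X) : el h - 1 ∈ J X := by
  induction hh using Subgroup.closure_induction with
  | mem x hx => exact J_mem hx
  | one => rw [el_one, sub_self]; exact Submodule.zero_mem _
  | mul x y _ _ hx hy =>
    have e : el (x * y) - 1 = el x * (el y - 1) + (el x - 1) := by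
      rw [el_mul]; noncomm_ring
    rw [e]
    exact Submodule.add_mem _ (J_mul _ hy) hx
  | inv x _ hx =>
    have e : el x⁻¹ - 1 = -(el x⁻¹ * (el x - 1)) := by
      rw [mul_sub, el_inv_mul]; noncomm_ring
    rw [e]
    exact Submodule.neg_mem _ (J_mul _ hx)

/-- the sums of the coefficients over the left cosets of `H` -/
noncomputable def cs (H : Subgroup G) : RG G →+ (G ⧸ H →₀ ℤ) where
  toFun x := Finsupp.mapDomain (fun g : G => (g : G ⧸ H)) x.coeff
  map_zero' := by simp
  map_add' x y := by simp [Finsupp.mapDomain_add]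

lemma cs_el (H : Subgroup G) (g : G) : cs H (el g) = Finsupp.single (g : G ⧸ H) 1 := by
  change Finsupp.mapDomain _ (Finsupp.single g 1) = _
  rw [Finsupp.mapDomain_single]

lemma single_eq (g : G) (r : ℤ) : (MonoidAlgebra.single g r : RG G) = r • el g := by
  apply MonoidAlgebra.coeff_injective
  rw [MonoidAlgebra.coeff_smul, coeff_el, Finsupp.smul_single, smul_eq_mul, mul_one]
  rfl

/-- induction for the group ring -/
lemma RG_ind {p : RG G → Prop} (x : RG G) (h0 : p 0) (ha : ∀ x y, p x → p y → p (x + y))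
    (hs : ∀ (g : G) (r : ℤ), p (r • el g)) : p x := by
  induction x using MonoidAlgebra.induction_linear with
  | zero => exact h0
  | add x y hx hy => exact ha _ _ hx hy
  | single g r => rw [single_eq]; exact hs g r

lemma cs_el_mul (H : Subgroup G) (g : G) (y : RG G) :
    cs H (el g * y) = Finsupp.mapDomain (fun z : G ⧸ H => g • z) (cs H y) := by
  induction y using RG_ind with
  | h0 => simp
  | ha x y hx hy => rw [mul_add, map_add, hx, hy, map_add, Finsupp.mapDomain_add]
  | hs k r =>
    rw [mul_smul_comm, ← el_mul, map_zsmul, map_zsmul, cs_el, cs_el, Finsupp.mapDomain_smul,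
      Finsupp.mapDomain_single]
    rfl

lemma cs_of_mem {H : Subgroup G} {y : RG G} (hy : y ∈ J (H : Set G)) : cs H y = 0 := by
  induction hy using Submodule.span_induction with
  | mem x hx =>
    obtain ⟨h, hh, rfl⟩ := hx
    rw [map_sub, cs_el, ← el_one, cs_el, sub_eq_zero]
    congr 1
    rw [QuotientGroup.eq]
    simpa using hh
  | zero => simp
  | add x y _ _ hx hy => rw [map_add, hx, hy, add_zero]
  | smul r x _ hx =>
    rw [smul_eq_mul]
    induction r using RG_ind with
    | h0 => simp
    | ha a b ha hb => rw [add_mul, map_add, ha, hb, add_zero]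
    | hs g r => rw [smul_mul_assoc, map_zsmul, cs_el_mul, hx]; simp

lemma mem_of_cs {H : Subgroup G} {y : RG G} (hy : cs H y = 0) : y ∈ J (H : Set G) := by
  let σ : (G ⧸ H →₀ ℤ) →+ RG G := Finsupp.liftAddHom (fun z => (zmultiplesHom (RG G)) (el z.out))
  have hσ : ∀ z (r : ℤ), σ (Finsupp.single z r) = r • el z.out := by
    intro z r
    simp [σ]
  have key : ∀ x : RG G, x - σ (cs H x) ∈ J (H : Set G) := by
    intro x
    induction x using RG_ind with
    | h0 => simp
    | ha x y hx hy =>
      rw [map_add, map_add, add_sub_add_comm]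
      exact Submodule.add_mem _ hx hy
    | hs g r =>
      rw [map_zsmul, map_zsmul, cs_el, hσ, one_smul, ← smul_sub]
      apply Submodule.smul_of_tower_mem
      have h1 : g⁻¹ * (g : G ⧸ H).out ∈ H := by
        rw [← QuotientGroup.eq, QuotientGroup.out_eq']
      have e : el g - el (g : G ⧸ H).out = -(el g * (el (g⁻¹ * (g : G ⧸ H).out) - 1)) := by
        rw [mul_sub, ← el_mul, mul_inv_cancel_left]; noncomm_ring
      rw [e]
      exact Submodule.neg_mem _ (J_mul _ (J_mem h1))
  have := key y
  rwa [hy, map_zero, sub_zero] at this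

lemma J_directed {ι : Type} [Nonempty ι] (X : ι → Set G)
    (hdir : ∀ i j, ∃ k, X i ⊆ X k ∧ X j ⊆ X k) {y : RG G} (hy : y ∈ J (⋃ i, X i)) :
    ∃ i, y ∈ J (X i) := by
  induction hy using Submodule.span_induction with
  | mem x hx =>
    obtain ⟨g, hg, rfl⟩ := hx
    obtain ⟨i, hi⟩ := Set.mem_iUnion.1 hg
    exact ⟨i, J_mem hi⟩
  | zero =>
    obtain ⟨i⟩ := ‹Nonempty ι›
    exact ⟨i, Submodule.zero_mem _⟩
  | add x y _ _ hx hy =>
    obtain ⟨i, hi⟩ := hx
    obtain ⟨j, hj⟩ := hy
    obtain ⟨k, hk1, hk2⟩ := hdir i j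
    exact ⟨k, Submodule.add_mem _ (J_mono hk1 hi) (J_mono hk2 hj)⟩
  | smul r x _ hx =>
    obtain ⟨i, hi⟩ := hx
    exact ⟨i, J_mul r hi⟩

lemma J_directed_finset {ι : Type} [Nonempty ι] (X : ι → Set G)
    (hdir : ∀ i j, ∃ k, X i ⊆ X k ∧ X j ⊆ X k) (T : Finset (RG G))
    (hT : ∀ y ∈ T, y ∈ J (⋃ i, X i)) : ∃ i, ∀ y ∈ T, y ∈ J (X i) := by
  classical
  induction T using Finset.induction_on with
  | empty =>
    obtain ⟨i⟩ := ‹Nonempty ι›
    exact ⟨i, by simp⟩
  | insert a T _ ih =>
    obtain ⟨i, hi⟩ := ih fun y hy => hT y (Finset.mem_insert_of_mem hy)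
    obtain ⟨j, hj⟩ := J_directed X hdir (hT a (Finset.mem_insert_self a T))
    obtain ⟨k, hk1, hk2⟩ := hdir i j
    refine ⟨k, fun y hy => ?_⟩
    rcases Finset.mem_insert.1 hy with rfl | hy
    · exact J_mono hk2 hj
    · exact J_mono hk1 (hi y hy)

/-- a finitely supported function which is moved down by a map of degree `-1` vanishes -/
lemma eq_zero_of_shift {S : Type} (ρ : S → S) (η : S → ℤ) (hη : ∀ z, η (ρ z) = η z - 1)
    (v : S →₀ ℤ) (hv : v = Finsupp.mapDomain ρ v) : v = 0 := by
  classical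
  by_contra hne
  have hs : v.support.Nonempty := Finsupp.support_nonempty_iff.2 hne
  obtain ⟨z, hz, hmax⟩ := Finset.exists_max_image v.support η hs
  have h1 : z ∈ (Finsupp.mapDomain ρ v).support := by rw [← hv]; exact hz
  have h2 := Finsupp.mapDomain_support h1
  rw [Finset.mem_image] at h2
  obtain ⟨z', hz', rfl⟩ := h2
  have h3 := hmax z' hz'
  rw [hη] at h3
  omega

end Pool.Agent.V7H19.PD3
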